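import Pool.Agent.helper10.V3.SpecL

set_option autoImplicit false

open Complex Metric Set Filter Topology MeasureTheory MPS

noncomputable section

namespace V3S

/-- the difference of `χ` and its linear part -/
theorem CAF_lin (χ : ℂ → ℂ) (r : ℝ) (hd : DifferentiableOn ℂ χ (ball 0 r))
    (hb : ∀ w ∈ ball (0 : ℂ) r, ‖deriv χ w - deriv χ 0‖ ≤ ‖deriv χ 0‖ / 10) :
    ∀ w ∈ ball (0 : ℂ) r, ∀ w' ∈ ball (0 : ℂ) r,
      ‖(χ w - deriv χ 0 * w) - (χ w' - deriv χ 0 * w')‖ ≤ ‖deriv χ 0‖ / 10 * ‖w - w'‖ := by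
  intro w hw w' hw'
  have hda : ∀ x ∈ ball (0 : ℂ) r, DifferentiableAt ℂ χ x := fun x hx =>
    hd.differentiableAt (isOpen_ball.mem_nhds hx)
  have h1 : ∀ x ∈ ball (0 : ℂ) r, HasDerivAt (fun w => χ w - deriv χ 0 * w)
      (deriv χ x - deriv χ 0) x := by
    intro x hx
    have h2 : HasDerivAt (fun w => χ w - deriv χ 0 * w) (deriv χ x - deriv χ 0 * 1) x :=
      (hda x hx).hasDerivAt.fun_sub ((hasDerivAt_id x).const_mul (deriv χ 0))
    rw [mul_one] at h2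
    exact h2
  exact (convex_ball (0 : ℂ) r).norm_image_sub_le_of_norm_hasDerivWithin_le
    (f := fun w => χ w - deriv χ 0 * w) (f' := fun x => deriv χ x - deriv χ 0)
    (fun x hx => (h1 x hx).hasDerivWithinAt) hb hw' hw

theorem CAF_two (χ : ℂ → ℂ) (r : ℝ) (hd : DifferentiableOn ℂ χ (ball 0 r))
    (hb : ∀ w ∈ ball (0 : ℂ) r, ‖deriv χ w - deriv χ 0‖ ≤ ‖deriv χ 0‖ / 10) :
    ∀ w ∈ ball (0 : ℂ) r, ∀ w' ∈ ball (0 : ℂ) r,
      9 / 10 * ‖deriv χ 0‖ * ‖w - w'‖ ≤ ‖χ w - χ w'‖ ∧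
        ‖χ w - χ w'‖ ≤ 11 / 10 * ‖deriv χ 0‖ * ‖w - w'‖ := by
  intro w hw w' hw'
  have h1 := CAF_lin χ r hd hb w hw w' hw'
  have h2 : (χ w - deriv χ 0 * w) - (χ w' - deriv χ 0 * w') =
      (χ w - χ w') - deriv χ 0 * (w - w') := by ring
  rw [h2] at h1
  have h3 : ‖deriv χ 0 * (w - w')‖ = ‖deriv χ 0‖ * ‖w - w'‖ := norm_mul _ _
  have h4 := norm_sub_norm_le (χ w - χ w') (deriv χ 0 * (w - w'))
  have h5 := norm_sub_norm_le (deriv χ 0 * (w - w')) (χ w - χ w')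
  rw [norm_sub_rev (deriv χ 0 * (w - w')) (χ w - χ w')] at h5
  rw [h3] at h4 h5
  constructor <;> linarith

theorem CAF_surj (χ : ℂ → ℂ) (r : ℝ) (hd : DifferentiableOn ℂ χ (ball 0 r))
    (hb : ∀ w ∈ ball (0 : ℂ) r, ‖deriv χ w - deriv χ 0‖ ≤ ‖deriv χ 0‖ / 10)
    (h0 : deriv χ 0 ≠ 0) (t : ℝ) (ht : 0 < t) (htr : t ≤ r) :
    ball (χ 0) (9 / 10 * t * ‖deriv χ 0‖) ⊆ χ '' ball 0 t := by
  intro z hz
  rw [mem_ball, dist_eq_norm] at hz
  set s : ℂ := deriv χ 0 with hs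
  have hs0 : 0 < ‖s‖ := norm_pos_iff.mpr h0
  -- a smaller radius
  obtain ⟨t', ht'0, ht't, hzt⟩ : ∃ t' : ℝ, 0 < t' ∧ t' < t ∧ ‖z - χ 0‖ ≤ 9 / 10 * t' * ‖s‖ := by
    refine ⟨max (t / 2) (‖z - χ 0‖ / (9 / 10 * ‖s‖)), lt_max_of_lt_left (by linarith), ?_, ?_⟩
    · apply max_lt (by linarith)
      rw [div_lt_iff₀ (by positivity)]
      linarith
    · have h1 := le_max_right (t / 2) (‖z - χ 0‖ / (9 / 10 * ‖s‖))
      rw [div_le_iff₀ (by positivity)] at h1
      linarith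
  have hsub : closedBall (0 : ℂ) t' ⊆ ball 0 r := closedBall_subset_ball (by linarith)
  have h0r : (0 : ℂ) ∈ ball (0 : ℂ) r := mem_ball_self (by linarith)
  let g : ℂ → ℂ := fun w => w - (χ w - z) / s
  have hgdiff : ∀ w ∈ ball (0 : ℂ) r, ∀ w' ∈ ball (0 : ℂ) r, ‖g w - g w'‖ ≤ 1 / 10 * ‖w - w'‖ := by
    intro w hw w' hw'
    have h1 := CAF_lin χ r hd hb w hw w' hw'
    rw [← hs] at h1
    have h2 : g w - g w' = -(((χ w - s * w) - (χ w' - s * w')) / s) := by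
      simp only [g]
      field_simp
      ring
    rw [h2, norm_neg, norm_div, div_le_iff₀ hs0]
    linarith
  have hg0 : ‖g 0‖ ≤ 9 / 10 * t' := by
    have h1 : g 0 = (z - χ 0) / s := by
      simp only [g]
      ring
    rw [h1, norm_div, div_le_iff₀ hs0]
    exact hzt
  have hmaps : MapsTo g (closedBall 0 t') (closedBall 0 t') := by
    intro w hw
    have hw' : ‖w‖ ≤ t' := mem_closedBall_zero_iff.1 hw
    rw [mem_closedBall_zero_iff]
    have h1 := hgdiff w (hsub hw) 0 h0r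
    rw [sub_zero] at h1
    calc ‖g w‖ = ‖(g w - g 0) + g 0‖ := by rw [sub_add_cancel]
      _ ≤ ‖g w - g 0‖ + ‖g 0‖ := norm_add_le _ _
      _ ≤ 1 / 10 * ‖w‖ + 9 / 10 * t' := add_le_add h1 hg0
      _ ≤ t' := by linarith
  have hcon : ContractingWith (1 / 10 : NNReal) (hmaps.restrict g _ _) := by
    constructor
    · rw [← NNReal.coe_lt_coe]
      norm_num
    · refine LipschitzWith.of_dist_le_mul fun x y => ?_
      rw [Subtype.dist_eq, Subtype.dist_eq, dist_eq_norm, dist_eq_norm]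
      have h1 := hgdiff x (hsub x.2) y (hsub y.2)
      have h2 : ((1 / 10 : NNReal) : ℝ) = 1 / 10 := by norm_num
      rw [h2]
      exact h1
  obtain ⟨w, hw, hfix, -⟩ := hcon.exists_fixedPoint' (isClosed_closedBall.isComplete) hmaps
    (x := 0) (mem_closedBall_self ht'0.le) (edist_ne_top _ _)
  refine ⟨w, closedBall_subset_ball ht't hw, ?_⟩
  have h1 : w - (χ w - z) / s = w := hfix
  have h2 : (χ w - z) / s = 0 := by linear_combination -h1
  rcases div_eq_zero_iff.1 h2 with h3 | h3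
  · exact sub_eq_zero.1 h3
  · exact absurd h3 h0

/-- CAF -/
theorem CAF : CAF_stmt := by
  intro k _ b g χ r hr hnat hb
  have h0r : (0 : ℂ) ∈ ball (0 : ℂ) r := mem_ball_self hr
  have h0 : deriv χ 0 ≠ 0 := by
    intro h
    have h1 := hnat.eq 0 h0r
    rw [h] at h1
    norm_num at h1
  have hs0 : 0 < ‖deriv χ 0‖ := norm_pos_iff.mpr h0
  have htwo := CAF_two χ r hnat.diff hb
  have hsurj := CAF_surj χ r hnat.diff hb h0
  refine ⟨h0, ?_, htwo, hsurj, ?_, ?_⟩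
  · intro w hw w' hw' heq
    have h1 := (htwo w hw w' hw').1
    rw [heq, sub_self, norm_zero] at h1
    have h2 : ‖w - w'‖ = 0 := by
      have h3 : 0 ≤ ‖w - w'‖ := norm_nonneg _
      by_contra hne
      have h4 : 0 < ‖w - w'‖ := lt_of_le_of_ne h3 (Ne.symm hne)
      have h5 : 0 < 9 / 10 * ‖deriv χ 0‖ * ‖w - w'‖ := by positivity
      linarith
    exact sub_eq_zero.1 (norm_eq_zero.1 h2)
  · intro z hz
    obtain ⟨w, hw, rfl⟩ := hsurj r hr le_rfl hz
    have h1 := hnat.eq w hw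
    have h2 : ‖deriv χ w‖ ^ 2 * ‖BB b g (χ w)‖ = 1 := by
      rw [← norm_pow, ← norm_mul, h1, norm_one]
    have h3 := hb w hw
    have h4 := norm_sub_norm_le (deriv χ w) (deriv χ 0)
    have h5 := norm_sub_norm_le (deriv χ 0) (deriv χ w)
    rw [norm_sub_rev (deriv χ 0) (deriv χ w)] at h5
    set s := ‖deriv χ 0‖ with hs
    set u := ‖deriv χ w‖ with hu
    have hu1 : u ≤ 11 / 10 * s := by linarith
    have hu2 : 9 / 10 * s ≤ u := by linarith
    have hu0 : 0 < u := by linarith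
    have h6 : ‖BB b g (χ w)‖ = 1 / u ^ 2 := by
      rw [eq_div_iff (by positivity)]
      linarith
    rw [h6, div_mul_eq_mul_div, one_mul]
    constructor
    · rw [le_div_iff₀ (by positivity)]
      nlinarith
    · rw [div_le_iff₀ (by positivity)]
      nlinarith
  · intro w hw
    have hd : DifferentiableOn ℂ (fun w => deriv χ w) (ball 0 r) := hnat.diff.deriv isOpen_ball
    have hmaps : MapsTo (fun w => deriv χ w) (ball 0 r) (closedBall (deriv χ 0) (‖deriv χ 0‖ / 10)) := by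
      intro x hx
      rw [mem_closedBall, dist_eq_norm]
      exact hb x hx
    have h1 := Complex.dist_le_div_mul_dist_of_mapsTo_ball hd hmaps hw
    rw [dist_eq_norm, dist_eq_norm, sub_zero] at h1
    calc ‖deriv χ w - deriv χ 0‖ ≤ ‖deriv χ 0‖ / 10 / r * ‖w‖ := h1
      _ = ‖deriv χ 0‖ / 10 * (‖w‖ / r) := by ring

end V3S
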