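import Pool.Agent.helper54.V3.SpecG

set_option autoImplicit false

namespace V3S

open Complex Metric Set Filter Topology MeasureTheory MPS V3

theorem GEP_diff (f : Polynomial ℂ) (j : ℕ) : Differentiable ℂ ((fun y : ℂ => f.eval y)^[j]) :=
  (f.differentiable).iterate j

theorem GEP_step (f : Polynomial ℂ) (j : ℕ) (y : ℂ) :
    (fun y : ℂ => f.eval y)^[j + 1] y = f.eval ((fun y : ℂ => f.eval y)^[j] y) :=
  Function.iterate_succ_apply' _ _ _

theorem GEP_dstep (f : Polynomial ℂ) (j : ℕ) (y : ℂ) :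
    deriv ((fun y : ℂ => f.eval y)^[j + 1]) y =
      PPS.fd f ((fun y : ℂ => f.eval y)^[j] y) * deriv ((fun y : ℂ => f.eval y)^[j]) y := by
  have h1 : (fun y : ℂ => f.eval y)^[j + 1] = (fun y : ℂ => f.eval y) ∘ (fun y : ℂ => f.eval y)^[j] :=
    Function.iterate_succ' _ _
  rw [h1]
  have h2 := (f.hasDerivAt ((fun y : ℂ => f.eval y)^[j] y)).comp y ((GEP_diff f j) y).hasDerivAt
  exact h2.deriv

theorem GEP_fd (f : Polynomial ℂ) (k : ℕ) (y : ℂ) (h : deriv ((fun y : ℂ => f.eval y)^[k]) y ≠ 0) :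
    ∀ j < k, PPS.fd f ((fun y : ℂ => f.eval y)^[j] y) ≠ 0 := by
  intro j hj h0
  have h1 : ∀ m, deriv ((fun y : ℂ => f.eval y)^[j + 1 + m]) y = 0 := by
    intro m
    induction m with
    | zero => rw [add_zero, GEP_dstep, h0, zero_mul]
    | succ m ih => rw [← add_assoc, GEP_dstep, ih, mul_zero]
  obtain ⟨m, rfl⟩ : ∃ m, k = j + 1 + m := ⟨k - (j + 1), by omega⟩
  exact h (h1 m)

theorem GEP (hNR : NR_stmt) (hLV : PPS.LV_stmt) : GEP_stmt := by
  intro k _ f b g hdeg hcyc z hd hav hB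
  set φ : ℕ → ℂ → ℂ := fun j => (fun y : ℂ => f.eval y)^[j] with hφ
  have hφk : ∀ j, (fun y : ℂ => f.eval y)^[j] = φ j := fun j => rfl
  rw [hφk k] at hd hB ⊢
  have hav' : ∀ i, φ k z ≠ b i := hav
  -- square root of 1/B
  obtain ⟨σ, hσ⟩ : ∃ σ : ℂ, σ ^ 2 * BB b g (φ k z) = 1 := by
    obtain ⟨s, hs⟩ := IsAlgClosed.exists_pow_nat_eq (BB b g (φ k z))⁻¹ (n := 2) (by norm_num)
    exact ⟨s, by rw [hs]; exact inv_mul_cancel₀ hB⟩
  obtain ⟨r, hr, ε, hε, hχ⟩ := hNR k b g (φ k z) hav' hB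
  obtain ⟨χ, hχ0, hχ1, hnat⟩ := hχ (φ k z) (mem_ball_self hε) σ hσ
  -- local inverse
  have han : AnalyticAt ℂ (φ k) z := (GEP_diff f k).analyticAt z
  have hsd : HasStrictDerivAt (φ k) (deriv (φ k) z) z := han.hasStrictDerivAt
  have hsf := hsd.hasStrictFDerivAt_equiv hd
  set e := hsf.toOpenPartialHomeomorph (φ k) with he
  have hecoe : ∀ y, e y = φ k y := fun y => rfl
  have hzs : z ∈ e.source := hsf.mem_toOpenPartialHomeomorph_source
  have hzt : φ k z ∈ e.target := hsf.image_mem_toOpenPartialHomeomorph_target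
  have hez : e.symm (φ k z) = z := e.left_inv hzs
  have hdc : Continuous (deriv (φ k)) := by
    have : Differentiable ℂ (deriv (φ k)) := by
      have := (GEP_diff f k).contDiff (n := 2)
      exact (this.differentiable_deriv_two)
    exact this.continuous
  set V : Set ℂ := e.symm.source ∩ e.symm ⁻¹' {y | deriv (φ k) y ≠ 0} with hV
  have hVo : IsOpen V := e.symm.isOpen_inter_preimage (isOpen_ne_fun hdc continuous_const)
  have hzV : φ k z ∈ V := by
    refine ⟨hzt, ?_⟩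
    show deriv (φ k) (e.symm (φ k z)) ≠ 0
    rw [hez]
    exact hd
  set Ω : Set ℂ := ball 0 r ∩ χ ⁻¹' V with hΩ
  have hΩo : IsOpen Ω := hnat.diff.continuousOn.isOpen_inter_preimage isOpen_ball hVo
  have h0Ω : (0 : ℂ) ∈ Ω := ⟨mem_ball_self hr, by rw [mem_preimage, hχ0]; exact hzV⟩
  set c : ℂ → ℂ := fun w => e.symm (χ w) with hc
  have hc0 : c 0 = z := by simp only [hc]; rw [hχ0, hez]
  have hφc : ∀ w ∈ Ω, φ k (c w) = χ w := by
    intro w hw
    have h1 : χ w ∈ e.target := hw.2.1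
    have := e.right_inv h1
    exact this
  have hdne : ∀ w ∈ Ω, deriv (φ k) (c w) ≠ 0 := fun w hw => hw.2.2
  have hχd : ∀ w ∈ Ω, HasDerivAt χ (deriv χ w) w := fun w hw =>
    (hnat.diff.differentiableAt (isOpen_ball.mem_nhds hw.1)).hasDerivAt
  have hcd : ∀ w ∈ Ω, HasDerivAt c ((deriv (φ k) (c w))⁻¹ * deriv χ w) w := by
    intro w hw
    have h1 : χ w ∈ e.target := hw.2.1
    have h2 : HasDerivAt e (deriv (φ k) (c w)) (e.symm (χ w)) :=
      ((GEP_diff f k) (c w)).hasDerivAt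
    have h3 := e.hasDerivAt_symm h1 (hdne w hw) h2
    exact h3.comp w (hχd w hw)
  set G : ℕ → ℂ → ℂ := fun q w => φ (k - q) (c w) with hG
  have hGd : ∀ q, ∀ w ∈ Ω, HasDerivAt (G q) (deriv (φ (k - q)) (c w) * ((deriv (φ k) (c w))⁻¹ * deriv χ w)) w := by
    intro q w hw
    exact (((GEP_diff f (k - q)) (c w)).hasDerivAt).comp w (hcd w hw)
  have hG0 : EqOn (G 0) χ Ω := fun w hw => hφc w hw
  have hG0d : ∀ w ∈ Ω, deriv (G 0) w = deriv χ w := by
    intro w hw
    apply Filter.EventuallyEq.deriv_eq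
    filter_upwards [hΩo.mem_nhds hw] with y hy using hG0 hy
  have hLS : PPS.LevSys f b g G Ω k := by
    refine ⟨⟨?_, ?_, ?_⟩, ?_, ?_⟩
    · exact fun w hw => (hGd 0 w hw).differentiableAt.differentiableWithinAt
    · intro w hw j
      rw [hG0 hw]
      exact hnat.av w hw.1 j
    · intro w hw
      rw [hG0d w hw, hG0 hw]
      exact hnat.eq w hw.1
    · intro q _
      exact fun w hw => (hGd q w hw).differentiableAt.differentiableWithinAt
    · intro q hq w hw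
      refine ⟨?_, ?_⟩
      · have h1 : k - q = (k - (q + 1)) + 1 := by omega
        show f.eval (φ (k - (q + 1)) (c w)) = φ (k - q) (c w)
        rw [h1]
        exact (GEP_step f _ _).symm
      · exact GEP_fd f k (c w) (hdne w hw) (k - (q + 1)) (by omega)
  obtain ⟨hLV1, -, -, -, -⟩ := hLV k f b g G Ω k hdeg hcyc hΩo hLS
  have hmain := hLV1 k le_rfl 0 h0Ω
  -- tau
  set T : ℂ := deriv (φ k) z ^ 2 * BB b g (φ k z) with hT
  have hT0 : T ≠ 0 := mul_ne_zero (pow_ne_zero _ hd) hB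
  have htau0 : tau b g G 0 0 = 1 := by
    show deriv (G 0) 0 ^ 2 * BB b g (G 0 0) = 1
    rw [hG0d 0 h0Ω, hG0 h0Ω]
    exact hnat.eq 0 (mem_ball_self hr)
  have hcd2 : (deriv χ 0) ^ 2 * BB b g (φ k z) = 1 := by
    rw [hχ1]; exact hσ
  have hGq : ∀ q, G q 0 = φ (k - q) z := by
    intro q
    simp only [hG]
    rw [hc0]
  have hGqd : ∀ q, deriv (G q) 0 = deriv (φ (k - q)) z * ((deriv (φ k) z)⁻¹ * deriv χ 0) := by
    intro q
    rw [(hGd q 0 h0Ω).deriv, hc0]
  have hcT : ((deriv (φ k) z)⁻¹ * deriv χ 0) ^ 2 = T⁻¹ := by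
    apply eq_inv_of_mul_eq_one_left
    rw [hT]
    field_simp
    linear_combination hcd2
  have hcTn : ‖(deriv (φ k) z)⁻¹ * deriv χ 0‖ ^ 2 = ‖T‖⁻¹ := by
    rw [← norm_pow, hcT, norm_inv]
  have htauk : tau b g G k 0 = BB b g z / T := by
    show deriv (G k) 0 ^ 2 * BB b g (G k 0) = _
    rw [hGqd, hGq, mul_pow, hcT, Nat.sub_self]
    have h1 : φ 0 = id := rfl
    rw [h1, deriv_id]
    simp only [id]
    rw [div_eq_mul_inv]
    ring
  have hTn : 0 < ‖T‖ := norm_pos_iff.mpr hT0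
  have hdens : ∀ q, PPS.dens f b g (G q) 0 = PPS.dens f b g (φ (k - q)) z * ‖T‖⁻¹ := by
    intro q
    unfold PPS.dens
    rw [hGqd, hGq, norm_mul, mul_pow, hcTn]
    ring
  -- sum up
  have hsum1 : ‖1 - tau b g G k 0‖ ≤ ∑ q ∈ Finset.range k, PPS.lev b g G (q + 1) 0 := by
    have h1 : (1 : ℂ) - tau b g G k 0 = ∑ q ∈ Finset.range k, (tau b g G q 0 - tau b g G (q + 1) 0) := by
      rw [Finset.sum_range_sub', htau0]
    rw [h1]
    refine (norm_sum_le _ _).trans (le_of_eq ?_)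
    apply Finset.sum_congr rfl
    intro q _
    unfold PPS.lev
    rw [Nat.add_sub_cancel]
  have hsum2 : (1 - tau b g G k 0).re = ∑ q ∈ Finset.range k, (tau b g G q 0 - tau b g G (q + 1) 0).re := by
    have h1 : (1 : ℂ) - tau b g G k 0 = ∑ q ∈ Finset.range k, (tau b g G q 0 - tau b g G (q + 1) 0) := by
      rw [Finset.sum_range_sub', htau0]
    rw [h1, Complex.re_sum]
  rw [Finset.sum_sub_distrib, ← hsum2] at hmain
  have hre := Complex.re_le_norm (tau b g G k 0)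
  have hfin : ‖1 - tau b g G k 0‖ - (1 - tau b g G k 0).re ≤
      (∑ q ∈ Finset.range k, PPS.dens f b g (φ (k - q)) z) * ‖T‖⁻¹ := by
    have h1 : ∑ q ∈ Finset.range k, PPS.dens f b g (G q) 0 =
        (∑ q ∈ Finset.range k, PPS.dens f b g (φ (k - q)) z) * ‖T‖⁻¹ := by
      rw [Finset.sum_mul]
      exact Finset.sum_congr rfl fun q _ => hdens q
    rw [← h1]
    linarith
  have hfin2 : ‖T‖ * (‖1 - tau b g G k 0‖ - (1 - tau b g G k 0).re) ≤
      ∑ q ∈ Finset.range k, PPS.dens f b g (φ (k - q)) z := by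
    have h1 := mul_le_mul_of_nonneg_left hfin hTn.le
    rw [mul_comm (∑ q ∈ Finset.range k, PPS.dens f b g (φ (k - q)) z), ← mul_assoc, mul_inv_cancel₀ hTn.ne',
      one_mul] at h1
    exact h1
  refine le_trans (le_of_eq ?_) hfin2
  have hTB : T - BB b g z = T * (1 - tau b g G k 0) := by
    rw [htauk]
    field_simp
  have h3 : T * (1 - tau b g G k 0) * (((‖T‖ : ℝ) : ℂ) / T) = ((‖T‖ : ℝ) : ℂ) * (1 - tau b g G k 0) := by
    field_simp
  rw [hTB, norm_mul, h3, Complex.re_ofReal_mul]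
  ring

end V3S
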