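import Pool.Agent.helper54.V3.SpecG

set_option autoImplicit false

namespace V3S

open Complex Metric Set Filter Topology MeasureTheory MPS V3

theorem GZX : GZX_stmt := by
  intro v t c' Y ht hc hY hv
  set a : ℂ := 2 * Real.pi * I with ha
  have ha0 : a ≠ 0 := by
    rw [ha]
    simp [Real.pi_ne_zero, I_ne_zero]
  set y : ℝ → ℂ := fun s => Complex.exp (a * (Y * I + s)) with hy
  have hy0 : ∀ s, y s ≠ 0 := fun s => Complex.exp_ne_zero _
  have hyn : ∀ s, ‖y s‖ < 1 := by
    intro s
    simp only [hy, Complex.norm_exp]
    rw [← Real.exp_zero]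
    apply Real.exp_lt_exp.mpr
    have : (a * (Y * I + s)).re = -(2 * Real.pi * Y) := by
      rw [ha]
      simp
    rw [this]
    have := Real.pi_pos
    have h2 : 0 < 2 * Real.pi * Y := by positivity
    linarith
  have hy1 : ∀ s, 1 - y s ≠ 0 := by
    intro s h
    have h1 : y s = 1 := by linear_combination -h
    have := hyn s
    rw [h1] at this
    simp at this
  have hE : ∀ s : ℝ, Complex.exp (-(2 * Real.pi * I * (t * (Y * I) + s * t) / t)) = (y s)⁻¹ := by
    intro s
    simp only [hy]
    rw [← Complex.exp_neg]
    congr 1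
    rw [ha]
    field_simp
  have hvs : ∀ s : ℝ, v (t * (Y * I) + s * t) = c' * (1 - (y s)⁻¹) := by
    intro s
    rw [hv, hE]
  have hne : ∀ s : ℝ, (1 - (y s)⁻¹) ≠ 0 := by
    intro s h
    have h1 : (y s)⁻¹ = 1 := by linear_combination -h
    have h2 : y s = 1 := by
      rw [← inv_inv (y s), h1, inv_one]
    apply hy1 s
    rw [h2]; ring
  have hdy : ∀ s : ℝ, HasDerivAt y (y s * a) s := by
    intro s
    have h1 : HasDerivAt (fun s : ℝ => a * ((Y : ℂ) * I + (s : ℂ))) (a * 1) s := by
      apply HasDerivAt.const_mul
      apply HasDerivAt.const_add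
      exact Complex.ofRealCLM.hasDerivAt (x := s)
    have h2 := h1.cexp
    simpa [hy] using h2
  have hcy : Continuous y := continuous_iff_continuousAt.mpr fun s => (hdy s).continuousAt
  have hP : ∀ s : ℝ, HasDerivAt (fun s : ℝ => Complex.log (1 - y s) / a) (1 / (1 - (y s)⁻¹)) s := by
    intro s
    have h1 : HasDerivAt (fun s : ℝ => 1 - y s) (-(y s * a)) s := by
      simpa using (hdy s).const_sub 1
    have h2 : (1 - y s) ∈ Complex.slitPlane := by
      left
      have := (Complex.abs_re_le_norm (y s)).trans_lt (hyn s)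
      have h3 := (abs_lt.mp this).2
      simp only [sub_re, one_re]
      linarith
    have h3 := (h1.clog_real h2).div_const a
    have h4 : -(y s * a) / (1 - y s) / a = 1 / (1 - (y s)⁻¹) := by
      have h5 := hy0 s
      have h6 := hy1 s
      have h7 := hne s
      have h8 : y s - 1 ≠ 0 := by
        intro h
        apply h6
        linear_combination -h
      field_simp
      ring_nf
    rw [h4] at h3
    exact h3
  have hcont : Continuous fun s : ℝ => 1 / (1 - (y s)⁻¹) := by
    apply Continuous.div continuous_const
    · exact continuous_const.sub (hcy.inv₀ hy0)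
    · exact hne
  have hy10 : y 1 = y 0 := by
    simp only [hy]
    have : a * ((Y : ℂ) * I + ((1 : ℝ) : ℂ)) = a * ((Y : ℂ) * I + ((0 : ℝ) : ℂ)) + 2 * Real.pi * I := by
      rw [ha]
      push_cast
      ring
    rw [this, Complex.exp_add, Complex.exp_two_pi_mul_I, mul_one]
  have hint : ∫ s in (0 : ℝ)..1, 1 / (1 - (y s)⁻¹) = 0 := by
    rw [intervalIntegral.integral_eq_sub_of_hasDerivAt (fun s _ => hP s)
      (hcont.intervalIntegrable 0 1)]
    rw [hy10]
    ring
  refine ⟨?_, ?_, ?_⟩
  · intro s
    rw [hvs]
    exact mul_ne_zero hc (hne s)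
  · have : (fun s : ℝ => 1 / v (t * (Y * I) + s * t) * t) = fun s : ℝ => (t / c') * (1 / (1 - (y s)⁻¹)) := by
      funext s
      rw [hvs]
      have := hne s
      field_simp
    rw [this, intervalIntegral.integral_const_mul, hint, mul_zero]
  · have hdv : ∀ x, deriv v x = c' * (Complex.exp (-(2 * Real.pi * I * x / t)) * (a / t)) := by
      intro x
      have hvf : v = fun x => c' * (1 - Complex.exp (-(2 * Real.pi * I * x / t))) := funext hv
      rw [hvf]
      have h1 : HasDerivAt (fun x : ℂ => -(2 * Real.pi * I * x / t)) (-(2 * Real.pi * I * 1 / t)) x := by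
        apply HasDerivAt.fun_neg
        apply HasDerivAt.div_const
        apply HasDerivAt.const_mul
        exact hasDerivAt_id x
      have h2 := ((h1.cexp).const_sub 1).const_mul c'
      rw [h2.deriv, ha]
      ring
    have : (fun s : ℝ => deriv v (t * (Y * I) + s * t) / v (t * (Y * I) + s * t) * t) =
        fun s : ℝ => a * (1 / (1 - (y s)⁻¹)) - a := by
      funext s
      rw [hdv, hvs, hE]
      have h1 := hne s
      generalize (y s)⁻¹ = w at h1
      field_simp
      ring
    rw [this, intervalIntegral.integral_sub, intervalIntegral.integral_const_mul, hint]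
    · simp
    · exact (continuous_const.mul hcont).intervalIntegrable 0 1
    · exact continuous_const.intervalIntegrable 0 1

end V3S
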